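import Pool.Agent.Lib.MP_d6ddbd_nt.L.All

set_option autoImplicit false

namespace Pool.Agent.Results.MP_d6ddbd_nt.LegendreDensity

open Filter

theorem result : ∃ G : ℤ × ℕ → Bool, Computable G ∧
    (∀ t : ℚ, G (t.num, t.den) = true →
      {P : ℚ × ℚ | P.2 ^ 2 = P.1 * (P.1 - 1) * (P.1 - t)}.Finite) ∧
    ∃ c : ℝ, 0 < c ∧ ∀ᶠ H : ℕ in atTop, c * H ^ 2 ≤
      ({t : ℚ | t.num.natAbs ≤ H ∧ t.den ≤ H ∧ G (t.num, t.den) = true}.ncard : ℝ) :=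
  Pool.Agent.Lib.MP_d6ddbd_nt.L.final

end Pool.Agent.Results.MP_d6ddbd_nt.LegendreDensity
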