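import Mathlib
import Pool.Agent.Lib.MP_d6ddbd_nt.Ex

set_option autoImplicit false

open Pool.Agent.Lib.MP_d6ddbd_nt

namespace Pool.Agent.Results.MP_d6ddbd_nt.PrimeTwists

theorem result (p : ℕ) (hp : p.Prime) (Z : Set (ℚ × ℚ))
    (hZ : Z = {P | (p : ℚ) * P.2 ^ 2 - (2 * P.1 ^ 2 + 2 * P.1 + 3) * (1 + 4 * P.1 - P.1 ^ 2) = 0}) :
    (Z.Infinite ↔ p % 20 = 3 ∨ p % 20 = 7) ∧ (¬ Z.Infinite → Z = ∅) := by
  obtain rfl : Z = Pts p := by
    rw [hZ]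
    ext P
    exact sub_eq_zero
  exact ⟨⟨fun h => local_cond hp h.nonempty, fun h => infinite_of_nonempty (nonempty_of hp h)⟩,
    fun h => Set.not_nonempty_iff_eq_empty.1 fun h' => h (infinite_of_nonempty h')⟩

end Pool.Agent.Results.MP_d6ddbd_nt.PrimeTwists
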