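import Pool.Agent.Lib.MP_d6ddbd_nt.G.All

set_option autoImplicit false

namespace Pool.Agent.Results.MP_d6ddbd_nt.TwistDensity

open Filter

theorem result : ∃ A : ℤ → Option Bool, Computable A ∧
    (∀ (D : ℤ) (b : Bool), A D = some b →
      ({P : ℚ × ℚ | (D : ℚ) * P.2 ^ 2 = P.1 * (P.1 + 1) * (P.1 - 16)}.Infinite ↔ b = true)) ∧
    (∀ ε : ℝ, 0 < ε → ∀ᶠ X : ℕ in atTop,
      (5 / 6 - ε) * ({n : ℕ | n ≤ X ∧ Squarefree n ∧ n % 4 = 3 ∧ n.Coprime 51 ∧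
          jacobiSym 17 n = 1}.ncard : ℝ) ≤
        ({n : ℕ | n ≤ X ∧ Squarefree n ∧ n % 4 = 3 ∧ n.Coprime 51 ∧ jacobiSym 17 n = 1 ∧
          A (-(n : ℤ)) = some true}.ncard : ℝ) ∧
      (1 / 3 - ε) * ({n : ℕ | n ≤ X ∧ Squarefree n ∧ n % 4 = 1 ∧ n.Coprime 51 ∧
          jacobiSym 17 n = 1}.ncard : ℝ) ≤
        ({n : ℕ | n ≤ X ∧ Squarefree n ∧ n % 4 = 1 ∧ n.Coprime 51 ∧ jacobiSym 17 n = 1 ∧
          A (n : ℤ) = some false}.ncard : ℝ)) ∧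
    ∃ c : ℝ, 0 < c ∧ ∀ᶠ X : ℕ in atTop,
      c * X ≤ ({n : ℕ | n ≤ X ∧ Squarefree n ∧ A (-(n : ℤ)) = some true}.ncard : ℝ) ∧
      c * X ≤ ({n : ℕ | n ≤ X ∧ Squarefree n ∧ A (n : ℤ) = some false}.ncard : ℝ) :=
  Pool.Agent.Lib.MP_d6ddbd_nt.G.finalAll

end Pool.Agent.Results.MP_d6ddbd_nt.TwistDensity
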