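import Pool.Agent.Lib.MP_d6ddbd_nt.GC.All
import Pool.Agent.Lib.MP_d6ddbd_nt.TZ.MW
import Pool.Agent.Lib.MP_d6ddbd_nt.TZ.Fin

set_option autoImplicit false

namespace Pool.Agent.Results.MP_d6ddbd_nt.TwoConverse

open Pool.Agent.Lib.MP_02f36d_nt.X11 Pool.Agent.Lib.MP_d6ddbd_nt.TZ

theorem result : ∃ A : List (List ℤ) →. Bool, Partrec A ∧
    (∀ L : List (List ℤ), ∀ b ∈ A L, ((Zer ℚ L).Infinite ↔ b = true)) ∧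
    (∀ d : ℤ, Squarefree d →
      ¬ ((11 : ℤ) ∣ d ∧ Odd d ∧ jacobiSym (d / -11) 11 = -1 ∧
          ∀ l : ℕ, l.Prime → (l : ℤ) ∣ d → l ≠ 11 → ∀ x : ZMod l,
            x ^ 3 - 4 * x ^ 2 - 160 * x - 1264 = 0 → IsSquare (11 * (3 * x ^ 2 - 8 * x - 160))) →
      ∀ E : WeierstrassCurve ℚ, E = ⟨0, -4 * d, 0, -160 * d ^ 2, -1264 * d ^ 3⟩ →
        ∀ k : ℕ, (Sel E (2 ^ k)).encard < 4 ^ k →
          (∀ L : List (List ℤ), Tors L E → (A L).Dom) ∧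
          Tors [[1264, 0, d], [160], [4], [-1]] E ∧
          ∃ b ∈ A [[1264, 0, d], [160], [4], [-1]],
            (b = true ↔ ((11 : ℤ) ∣ d ∧ 0 < d) ∨ jacobiSym |d| 11 = -1)) ∧
    Filter.Tendsto (fun X : ℕ => (({d : ℤ | |d| ≤ X ∧ Squarefree d ∧ ∃ L : List (List ℤ),
      Tors L ⟨0, -4 * d, 0, -160 * d ^ 2, -1264 * d ^ 3⟩ ∧ ¬ (A L).Dom}.ncard : ℕ) : ℝ) / X)
      Filter.atTop (nhds 0) := by
  obtain ⟨A, h1, h2, h3, h4⟩ :=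
    Pool.Agent.Lib.MP_d6ddbd_nt.TZ.fin_of mw Pool.Agent.Lib.MP_d6ddbd_nt.GC.cert
  refine ⟨A, h1, h2, fun d a n E hE k hk => ?_, h4⟩
  subst hE
  have := h3 d a (fun b => n ⟨b.1.1, b.2.1, b.1.2, b.2.2⟩) k hk
  exact ⟨this.1, tors_tw a.ne_zero, this.2⟩

end Pool.Agent.Results.MP_d6ddbd_nt.TwoConverse
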